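import Pool.Agent.P.MP_3df8df_an.XMain

set_option autoImplicit false

namespace Pool.Agent.Results.MP_3df8df_an.A2Strict

open Pool.Agent.P.MP_3df8df_an

/-- The function of Barnard and Suffridge is not extremal for the second coefficient. -/
theorem result : ∃ f : ℂ → ℂ, InS' f ∧ 3 / 2 + 1 / Real.pi < ‖coeff f 2‖ := by
  obtain ⟨f, h1, h2, -⟩ := Pool.Agent.P.BSX.main
  exact ⟨f, h1, h2⟩

end Pool.Agent.Results.MP_3df8df_an.A2Strict
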