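import Pool.Agent.P.MP_3df8df_an.Extremal

set_option autoImplicit false

namespace Pool.Agent.Results.MP_3df8df_an.LimitReal

open Pool.Agent.P.MP_3df8df_an

/-- The maximal `n`-th coefficient over the functions of `S'` with real coefficients tends to
`2 exp (2 G / π)`, and a single function of the class attains this limit. -/
theorem result :
    (∀ ε : ℝ, 0 < ε → ∀ᶠ n : ℕ in Filter.atTop, ∀ f : ℂ → ℂ, InSR f →
      ‖coeff f n‖ ≤ 2 * Real.exp (2 * catalanG / Real.pi) + ε) ∧
    ∃ F : ℂ → ℂ, InSR F ∧ Filter.Tendsto (fun n => ‖coeff F n‖) Filter.atTop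
      (nhds (2 * Real.exp (2 * catalanG / Real.pi))) := by
  obtain ⟨F, hF, -, h⟩ := lower
  exact ⟨fun _ hε => upper hε, F, hF, h⟩

end Pool.Agent.Results.MP_3df8df_an.LimitReal
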