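import Pool.Agent.P.MP_3df8df_an.XMain

set_option autoImplicit false

namespace Pool.Agent.Results.MP_3df8df_an.LimitStrict

open Pool.Agent.P.MP_3df8df_an

/-- The coefficients of one function of `S'` tend in modulus to a number larger than
`2 exp (2 G / π)`. -/
theorem result : ∃ f : ℂ → ℂ, InS' f ∧ ∃ m : ℝ, 2 * Real.exp (2 * catalanG / Real.pi) < m ∧
    Filter.Tendsto (fun n => ‖coeff f n‖) Filter.atTop (nhds m) := by
  obtain ⟨f, h1, -, h2⟩ := Pool.Agent.P.BSX.main
  exact ⟨f, h1, h2⟩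

end Pool.Agent.Results.MP_3df8df_an.LimitStrict
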