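import Pool.Agent.P.MP_3df8df_an.RMain

set_option autoImplicit false

namespace Pool.Agent.Results.MP_3df8df_an.RealEven

open Pool.Agent.P.MP_3df8df_an Pool.Agent.P.BSR

theorem result (n : ℕ) (he : Even n) (h1 : 4 ≤ n) (h2 : n ≤ 14) :
    IsGreatest {x : ℝ | ∃ f : ℂ → ℂ, InSR f ∧ x = ‖coeff f n‖}
      (‖iteratedDeriv (n - 1) bsd 0‖ / n.factorial) :=
  even_case he h1 h2

end Pool.Agent.Results.MP_3df8df_an.RealEven
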